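import Mathlib

/-!
# Kirchberger-type separation by small spheres for compact sets (MP_f10258_co)
-/

open Metric Set Module

namespace Pool.Agent.Results.MP_f10258_co.CompactSmallSpheres

/-- Euclidean `d`-space -/
abbrev EE (d : ℕ) : Type := EuclideanSpace ℝ (Fin d)

/-- `X` and `Y` are strictly separated by the sphere with centre `c` and radius `r`. -/
def StrictlySeparated {d : ℕ} (X Y : Set (EE d)) (c : EE d) (r : ℝ) : Prop :=
  X ∩ sphere c r = ∅ ∧ Y ∩ sphere c r = ∅ ∧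
    ((X ⊆ ball c r ∧ Y ⊆ (closedBall c r)ᶜ) ∨ (Y ⊆ ball c r ∧ X ⊆ (closedBall c r)ᶜ))

/-- small-sphere separable pairs -/
def SmallSphereSeparable {d : ℕ} (X Y : Set (EE d)) : Prop :=
  ∃ (c : EE d) (r : ℝ), 0 < r ∧ r ≤ 1 ∧ StrictlySeparated X Y c r ∧ X ⊆ ball c r

variable {d : ℕ}

lemma sep_of {X Y : Set (EE d)} {c : EE d} {r : ℝ} (h0 : 0 < r) (h1 : r ≤ 1)
    (hX : ∀ x ∈ X, dist x c < r) (hY : ∀ y ∈ Y, r < dist y c) : SmallSphereSeparable X Y := by
  refine ⟨c, r, h0, h1, ⟨?_, ?_, Or.inl ⟨hX, ?_⟩⟩, hX⟩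
  · rw [eq_empty_iff_forall_notMem]
    rintro x ⟨hx, hx'⟩
    exact (hX x hx).ne hx'
  · rw [eq_empty_iff_forall_notMem]
    rintro y ⟨hy, hy'⟩
    exact (hY y hy).ne' hy'
  · intro y hy hyc
    exact absurd (mem_closedBall.1 hyc) (not_le.2 (hY y hy))

/-- a bounded set is outside some unit sphere -/
lemma exists_far (hd : 1 ≤ d) (Y : Set (EE d)) (hY : Bornology.IsBounded Y) :
    ∃ c : EE d, ∀ y ∈ Y, 1 < dist y c := by
  obtain ⟨R, hR⟩ := hY.subset_closedBall 0
  have : Nonempty (Fin d) := ⟨⟨0, hd⟩⟩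
  have : Nontrivial (EE d) := inferInstance
  obtain ⟨c, hc⟩ := NormedSpace.exists_lt_norm ℝ (EE d) (R + 1)
  refine ⟨c, fun y hy => ?_⟩
  have h1 : ‖y‖ ≤ R := by simpa using hR hy
  have h2 : ‖c‖ ≤ ‖y‖ + dist y c := by
    have := norm_sub_norm_le c y
    rw [dist_comm, dist_eq_norm]
    linarith
  linarith

/-- the separating functions -/
noncomputable def ff (A B : Set (EE d)) : A ⊕ B → EE d × ℝ → ℝ :=
  Sum.elim (fun a p => p.2 - ‖(a : EE d)‖ ^ 2 + 2 * inner ℝ (a : EE d) p.1)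
    (fun b p => ‖(b : EE d)‖ ^ 2 - 2 * inner ℝ (b : EE d) p.1 - p.2)

lemma continuous_ff_left (A B : Set (EE d)) (p : EE d × ℝ) :
    Continuous (fun t => ff A B t p) := by
  have : (fun t => ff A B t p) =
      Sum.elim (fun a : A => p.2 - ‖(a : EE d)‖ ^ 2 + 2 * inner ℝ (a : EE d) p.1)
    (fun b : B => ‖(b : EE d)‖ ^ 2 - 2 * inner ℝ (b : EE d) p.1 - p.2) := by
    funext t
    rcases t with a | b <;> rfl
  rw [this]
  refine Continuous.sumElim ?_ ?_
  · have h1 : Continuous (fun a : A => (inner ℝ (a : EE d) p.1 : ℝ)) :=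
      continuous_subtype_val.inner continuous_const
    have h2 : Continuous (fun a : A => ‖(a : EE d)‖ ^ 2) := continuous_subtype_val.norm.pow 2
    exact (continuous_const.sub h2).add (continuous_const.mul h1)
  · have h1 : Continuous (fun a : B => (inner ℝ (a : EE d) p.1 : ℝ)) :=
      continuous_subtype_val.inner continuous_const
    have h2 : Continuous (fun a : B => ‖(a : EE d)‖ ^ 2) := continuous_subtype_val.norm.pow 2
    exact (h2.sub (continuous_const.mul h1)).sub continuous_const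

lemma continuous_ff_right (A B : Set (EE d)) (t : A ⊕ B) : Continuous (ff A B t) := by
  rcases t with a | b
  · have h1 : Continuous (fun p : EE d × ℝ => (inner ℝ (a : EE d) p.1 : ℝ)) :=
      continuous_const.inner continuous_fst
    exact (continuous_snd.sub continuous_const).add (continuous_const.mul h1)
  · have h1 : Continuous (fun p : EE d × ℝ => (inner ℝ (b : EE d) p.1 : ℝ)) :=
      continuous_const.inner continuous_fst
    exact (continuous_const.sub (continuous_const.mul h1)).sub continuous_snd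

/-- each `ff A B t` is affine -/
lemma ff_affine (A B : Set (EE d)) (t : A ⊕ B) (p q : EE d × ℝ) (x y : ℝ) (hxy : x + y = 1) :
    ff A B t (x • p + y • q) = x * ff A B t p + y * ff A B t q := by
  have hy : y = 1 - x := by linarith
  subst hy
  rcases t with a | b
  · simp only [ff, Sum.elim_inl, Prod.snd_add, Prod.smul_snd, Prod.fst_add, Prod.smul_fst,
      inner_add_right, inner_smul_right, smul_eq_mul]
    ring
  · simp only [ff, Sum.elim_inr, Prod.snd_add, Prod.smul_snd, Prod.fst_add, Prod.smul_fst,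
      inner_add_right, inner_smul_right, smul_eq_mul]
    ring

/-- centres and (shifted) radii with `r² ≤ 1`, bounded by `n` -/
def KK (d n : ℕ) : Set (EE d × ℝ) := {p | p.2 + ‖p.1‖ ^ 2 ≤ 1} ∩ closedBall 0 n

lemma isCompact_KK (n : ℕ) : IsCompact (KK d n) := by
  refine (isCompact_closedBall _ _).inter_left ?_
  exact isClosed_le (continuous_snd.add (continuous_fst.norm.pow 2)) continuous_const

lemma convex_KK (n : ℕ) : Convex ℝ (KK d n) := by
  refine Convex.inter ?_ (convex_closedBall _ _)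
  intro p hp q hq x y hx hy hxy
  simp only [mem_ofPred_eq] at hp hq ⊢
  simp only [Prod.snd_add, Prod.smul_snd, Prod.fst_add, Prod.smul_fst, smul_eq_mul]
  have h1 : ‖x • p.1 + y • q.1‖ ≤ x * ‖p.1‖ + y * ‖q.1‖ := by
    refine (norm_add_le _ _).trans ?_
    rw [norm_smul, norm_smul, Real.norm_of_nonneg hx, Real.norm_of_nonneg hy]
  have h2 : ‖x • p.1 + y • q.1‖ ^ 2 ≤ (x * ‖p.1‖ + y * ‖q.1‖) ^ 2 :=
    pow_le_pow_left₀ (norm_nonneg _) h1 2
  have h3 : (x * ‖p.1‖ + y * ‖q.1‖) ^ 2 ≤ x * ‖p.1‖ ^ 2 + y * ‖q.1‖ ^ 2 := by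
    have hy' : y = 1 - x := by linarith
    subst hy'
    nlinarith [mul_nonneg (mul_nonneg hx hy) (sq_nonneg (‖p.1‖ - ‖q.1‖))]
  nlinarith

/-- pairs of finite pieces give a solution of the linearised problem -/
lemma solve (hd : 1 ≤ d) (A B : Set (EE d))
    (h : ∀ T : Set (EE d), T ⊆ A ∪ B → T.encard ≤ d + 2 → SmallSphereSeparable (T ∩ A) (T ∩ B))
    (T : Fin (d + 2) → A ⊕ B) :
    ∃ p : EE d × ℝ, p.2 + ‖p.1‖ ^ 2 ≤ 1 ∧ ∀ i, 0 < ff A B (T i) p := by
  classical
  let pt : A ⊕ B → EE d := Sum.elim Subtype.val Subtype.val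
  set S : Set (EE d) := range (fun i => pt (T i)) with hS
  have hSsub : S ⊆ A ∪ B := by
    rintro _ ⟨i, rfl⟩
    rcases hT : T i with a | b
    · simp only [hT]; exact Or.inl a.2
    · simp only [hT]; exact Or.inr b.2
  have hfin : S.Finite := finite_range _
  have hcard : S.encard ≤ d + 2 := by
    have h1 : S.encard ≤ (univ : Set (Fin (d + 2))).encard := by
      rw [hS, ← image_univ]
      exact encard_image_le _ _
    refine h1.trans ?_
    simp
  -- from a sphere to a solution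
  have conv : ∀ (c : EE d) (r : ℝ), 0 < r → r ≤ 1 → (∀ x ∈ S ∩ A, dist x c < r) →
      (∀ y ∈ S ∩ B, r < dist y c) →
      ∃ p : EE d × ℝ, p.2 + ‖p.1‖ ^ 2 ≤ 1 ∧ ∀ i, 0 < ff A B (T i) p := by
    intro c r h0 h1 hX hY
    refine ⟨(c, r ^ 2 - ‖c‖ ^ 2), ?_, ?_⟩
    · simp only [sub_add_cancel]
      nlinarith
    · intro i
      have hmem : pt (T i) ∈ S := ⟨i, rfl⟩
      rcases hT : T i with a | b
      · have h2 := hX (a : EE d) ⟨by rw [hT] at hmem; exact hmem, a.2⟩
        have h3 : dist (a : EE d) c ^ 2 < r ^ 2 := pow_lt_pow_left₀ h2 dist_nonneg two_ne_zero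
        rw [dist_eq_norm, norm_sub_sq_real] at h3
        simp only [ff, Sum.elim_inl]
        linarith
      · have h2 := hY (b : EE d) ⟨by rw [hT] at hmem; exact hmem, b.2⟩
        have h3 : r ^ 2 < dist (b : EE d) c ^ 2 := pow_lt_pow_left₀ h2 h0.le two_ne_zero
        rw [dist_eq_norm, norm_sub_sq_real] at h3
        simp only [ff, Sum.elim_inr]
        linarith
  by_cases hA : (S ∩ A).Nonempty
  · obtain ⟨c, r, h0, h1, hsep, hXb⟩ := h S hSsub hcard
    refine conv c r h0 h1 (fun x hx => hXb hx) ?_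
    rcases hsep.2.2 with ⟨_, h2⟩ | ⟨_, h2⟩
    · intro y hy
      have := h2 hy
      simpa using this
    · obtain ⟨x, hx⟩ := hA
      exact absurd (ball_subset_closedBall (hXb hx)) (h2 hx)
  · obtain ⟨c, hc⟩ := exists_far hd S hfin.isBounded
    refine conv c 1 one_pos le_rfl (fun x hx => absurd ⟨x, hx⟩ hA) (fun y hy => hc y hy.1)

/-- **MP_f10258_co, Q1 (affirmative).** -/
theorem result (d : ℕ) (hd : 1 ≤ d) (A B : Set (EE d)) (hA : IsCompact A) (hB : IsCompact B) :
    SmallSphereSeparable A B ↔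
      ∀ T : Set (EE d), T ⊆ A ∪ B → T.encard ≤ d + 2 →
        SmallSphereSeparable (T ∩ A) (T ∩ B) := by
  constructor
  · rintro ⟨c, r, h0, h1, ⟨h2, h3, h4⟩, h5⟩ T _ _
    refine ⟨c, r, h0, h1, ⟨?_, ?_, ?_⟩, inter_subset_right.trans h5⟩
    · exact subset_eq_empty (inter_subset_inter_left _ inter_subset_right) h2
    · exact subset_eq_empty (inter_subset_inter_left _ inter_subset_right) h3
    · rcases h4 with ⟨h6, h7⟩ | ⟨h6, h7⟩
      · exact Or.inl ⟨inter_subset_right.trans h6, inter_subset_right.trans h7⟩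
      · exact Or.inr ⟨inter_subset_right.trans h6, inter_subset_right.trans h7⟩
  intro h
  rcases A.eq_empty_or_nonempty with hAe | hAne
  · obtain ⟨c, hc⟩ := exists_far hd B hB.isBounded
    refine sep_of one_pos le_rfl (c := c) ?_ hc
    rw [hAe]
    intro x hx
    exact absurd hx (notMem_empty x)
  have : CompactSpace A := isCompact_iff_compactSpace.1 hA
  have : CompactSpace B := isCompact_iff_compactSpace.1 hB
  obtain ⟨a0, ha0⟩ := hAne
  -- uniform bounds
  let O : ℕ → Set (Fin (d + 2) → A ⊕ B) := fun n =>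
    {T | ∃ p ∈ KK d n, ∀ i, 1 / ((n : ℝ) + 1) < ff A B (T i) p}
  have hOopen : ∀ n, IsOpen (O n) := by
    intro n
    have : O n = ⋃ p ∈ KK d n, ⋂ i, {T | 1 / ((n : ℝ) + 1) < ff A B (T i) p} := by
      ext T
      simp [O]
    rw [this]
    refine isOpen_biUnion fun p _ => isOpen_iInter_of_finite fun i => ?_
    exact isOpen_lt continuous_const ((continuous_ff_left A B p).comp (continuous_apply i))
  have hOmono : Monotone O := by
    intro m n hmn T
    rintro ⟨p, hp, hT⟩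
    refine ⟨p, ⟨hp.1, closedBall_subset_closedBall (by exact_mod_cast hmn) hp.2⟩, fun i => ?_⟩
    refine lt_of_le_of_lt ?_ (hT i)
    apply one_div_le_one_div_of_le
    · positivity
    · have : (m : ℝ) ≤ n := by exact_mod_cast hmn
      linarith
  have hOcover : (univ : Set (Fin (d + 2) → A ⊕ B)) ⊆ ⋃ n, O n := by
    intro T _
    obtain ⟨p, hp, hT⟩ := solve hd A B h T
    obtain ⟨δ, hδ, hδT⟩ : ∃ δ > 0, ∀ i, δ < ff A B (T i) p := by
      obtain ⟨i0, hi0⟩ := Finite.exists_min (fun i => ff A B (T i) p)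
      exact ⟨ff A B (T i0) p / 2, half_pos (hT i0), fun i =>
        lt_of_lt_of_le (half_lt_self (hT i0)) (hi0 i)⟩
    obtain ⟨n1, hn1⟩ := exists_nat_one_div_lt hδ
    obtain ⟨n2, hn2⟩ := exists_nat_ge ‖p‖
    rw [mem_iUnion]
    refine ⟨max n1 n2, p, ⟨hp, ?_⟩, fun i => ?_⟩
    · rw [mem_closedBall_zero_iff]
      refine hn2.trans ?_
      exact_mod_cast le_max_right _ _
    · refine lt_of_le_of_lt ?_ (hδT i)
      refine le_trans ?_ hn1.le
      apply one_div_le_one_div_of_le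
      · positivity
      · have : (n1 : ℝ) ≤ (max n1 n2 : ℕ) := by exact_mod_cast le_max_left _ _
        linarith
  obtain ⟨n, hn⟩ := isCompact_univ.elim_directed_cover O hOopen hOcover hOmono.directed_le
  -- Helly
  let F : A ⊕ B → Set (EE d × ℝ) := fun t => KK d n ∩ {p | 1 / ((n : ℝ) + 1) ≤ ff A B t p}
  have hFconv : ∀ t, Convex ℝ (F t) := by
    intro t
    refine (convex_KK n).inter ?_
    intro p hp q hq x y hx hy hxy
    simp only [mem_ofPred_eq] at hp hq ⊢
    rw [ff_affine A B t p q x y hxy]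
    have hy' : y = 1 - x := by linarith
    subst hy'
    nlinarith
  have hFcomp : ∀ t, IsCompact (F t) := by
    intro t
    exact (isCompact_KK n).inter_right (isClosed_le continuous_const (continuous_ff_right A B t))
  have hfr : finrank ℝ (EE d × ℝ) = d + 1 := by simp
  obtain ⟨p, hp⟩ : (⋂ t, F t).Nonempty := by
    refine Convex.helly_theorem_compact' hFconv hFcomp ?_
    intro I hI
    rw [hfr] at hI
    -- enumerate `I`
    obtain ⟨T, hT⟩ : ∃ T : Fin (d + 2) → A ⊕ B, ∀ t ∈ I, ∃ i, T i = t := by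
      classical
      let l := I.toList
      refine ⟨fun i => if hi : (i : ℕ) < l.length then l[i] else Sum.inl ⟨a0, ha0⟩, ?_⟩
      intro t ht
      obtain ⟨k, hk, hkt⟩ := List.mem_iff_getElem.1 (Finset.mem_toList.2 ht)
      have hk' : k < I.card := by rw [← Finset.length_toList]; exact hk
      refine ⟨⟨k, by omega⟩, ?_⟩
      simp only [l] at hk ⊢
      rw [dif_pos hk]
      exact hkt
    obtain ⟨p, hp, hpT⟩ := hn (mem_univ T)
    refine ⟨p, ?_⟩
    simp only [mem_iInter]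
    intro t ht
    obtain ⟨i, rfl⟩ := hT t ht
    exact ⟨hp, (hpT i).le⟩
  rw [mem_iInter] at hp
  have hpK : p.2 + ‖p.1‖ ^ 2 ≤ 1 := (hp (Sum.inl ⟨a0, ha0⟩)).1.1
  have hδ : 0 < 1 / ((n : ℝ) + 1) := by positivity
  have hpA : ∀ a ∈ A, dist a p.1 ^ 2 < p.2 + ‖p.1‖ ^ 2 := by
    intro a ha
    have h1 : 1 / ((n : ℝ) + 1) ≤ ff A B (Sum.inl ⟨a, ha⟩) p := (hp (Sum.inl ⟨a, ha⟩)).2
    simp only [ff, Sum.elim_inl] at h1
    rw [dist_eq_norm, norm_sub_sq_real]
    linarith
  have hpB : ∀ b ∈ B, p.2 + ‖p.1‖ ^ 2 < dist b p.1 ^ 2 := by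
    intro b hb
    have h1 : 1 / ((n : ℝ) + 1) ≤ ff A B (Sum.inr ⟨b, hb⟩) p := (hp (Sum.inr ⟨b, hb⟩)).2
    simp only [ff, Sum.elim_inr] at h1
    rw [dist_eq_norm, norm_sub_sq_real]
    linarith
  have hpos : 0 < p.2 + ‖p.1‖ ^ 2 := lt_of_le_of_lt (sq_nonneg _) (hpA a0 ha0)
  have hsq : Real.sqrt (p.2 + ‖p.1‖ ^ 2) ^ 2 = p.2 + ‖p.1‖ ^ 2 := Real.sq_sqrt hpos.le
  refine sep_of (c := p.1) (r := Real.sqrt (p.2 + ‖p.1‖ ^ 2)) (Real.sqrt_pos.2 hpos) ?_ ?_ ?_
  · rw [Real.sqrt_le_one]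
    exact hpK
  · intro a ha
    exact Real.lt_sqrt_of_sq_lt (hpA a ha)
  · intro b hb
    rw [Real.sqrt_lt' (lt_of_le_of_ne dist_nonneg ?_)]
    · exact hpB b hb
    · intro h0
      have := hpB b hb
      rw [← h0] at this
      nlinarith

end Pool.Agent.Results.MP_f10258_co.CompactSmallSpheres
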